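import Pool.Agent.H29.LG.Targets

set_option autoImplicit false

/-!
# MP_c65535_nt, all radicals: row CORK of the board `lgx_modules`
-/

namespace Pool.Agent.H90.LG

open NumberField Height Finset Polynomial Pool.Agent.H24.RD Pool.Agent.H23.RDD Pool.Agent.H29.RQ
open Pool.Agent.H29.SX Pool.Agent.H29.LG

section

variable {F Ω : Type} [Field F] [Field Ω] [Algebra F Ω]

private theorem pt_zero {M : Type} [Field M] {r : ℕ} (γ : Fin r → M) (β : M) : pt γ β 0 = 1 := by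
  unfold pt
  rw [Pi.zero_apply, zpow_zero, one_mul]
  exact Finset.prod_eq_one fun i _ => by rw [Pi.zero_apply, zpow_zero]

private theorem pt_add {M : Type} [Field M] {r : ℕ} {γ : Fin r → M} {β : M}
    (hγ : ∀ i, γ i ≠ 0) (hβ : β ≠ 0) (a b : Fin (r + 1) → ℤ) :
    pt γ β (a + b) = pt γ β a * pt γ β b := by
  unfold pt
  rw [Pi.add_apply, zpow_add₀ hβ]
  have h1 : ∏ i, γ i ^ ((a + b) i.succ) = (∏ i, γ i ^ (a i.succ)) * ∏ i, γ i ^ (b i.succ) := by
    rw [← Finset.prod_mul_distrib]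
    exact Finset.prod_congr rfl fun i _ => by rw [Pi.add_apply, zpow_add₀ (hγ i)]
  rw [h1]
  ring

private theorem pt_ne {M : Type} [Field M] {r : ℕ} {γ : Fin r → M} {β : M} (hγ : ∀ i, γ i ≠ 0)
    (hβ : β ≠ 0) (a : Fin (r + 1) → ℤ) : pt γ β a ≠ 0 := by
  unfold pt
  exact mul_ne_zero (zpow_ne_zero _ hβ) (Finset.prod_ne_zero_iff.2 fun i _ => zpow_ne_zero _ (hγ i))

private theorem Lv_stab {r : ℕ} (γ : Fin r → F) (N K : ℕ) (τ : Ω ≃ₐ[F] Ω) {z : Ω}
    (hz : z ∈ Lv F Ω γ N K) : τ z ∈ Lv F Ω γ N K := by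
  have h1 : Lv F Ω γ N K ≤ (Lv F Ω γ N K).comap (τ : Ω →ₐ[F] Ω) := by
    conv_lhs => unfold Lv
    rw [IntermediateField.adjoin_le_iff]
    rintro x hx
    change (τ : Ω →ₐ[F] Ω) x ∈ IntermediateField.adjoin F
      {z : Ω | z ^ N = 1 ∨ ∃ i, z ^ K = algebraMap F Ω (γ i)}
    apply IntermediateField.subset_adjoin
    rcases hx with hx | ⟨i, hx⟩
    · left
      rw [← map_pow, hx, map_one]
    · right
      refine ⟨i, ?_⟩
      rw [← map_pow, hx]
      exact τ.commutes _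
  exact h1 hz

/-- the restriction of an automorphism to a level field -/
private noncomputable def resL {r : ℕ} (γ : Fin r → F) (N K : ℕ) (τ : Ω ≃ₐ[F] Ω) :
    Lv F Ω γ N K ≃+* Lv F Ω γ N K where
  toFun z := ⟨τ z, Lv_stab γ N K τ z.2⟩
  invFun z := ⟨τ.symm z, Lv_stab γ N K τ.symm z.2⟩
  left_inv z := Subtype.ext (τ.symm_apply_apply _)
  right_inv z := Subtype.ext (τ.apply_symm_apply _)
  map_mul' x y := Subtype.ext (map_mul τ _ _)
  map_add' x y := Subtype.ext (map_add τ _ _)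

/-- an integral power in the group is enough -/
private theorem mem_Dv_of_zpow {r : ℕ} {γ : Fin r → F} {z : Ω} (hz : z ≠ 0) {B : ℤ}
    (hB : B ≠ 0) {u : Fin r → ℤ} (h : z ^ B = ∏ i, (algebraMap F Ω (γ i)) ^ u i) :
    z ∈ Dv F Ω γ := by
  refine ⟨hz, B.natAbs, Int.natAbs_pos.2 hB, ?_⟩
  rcases Int.natAbs_eq B with h1 | h1
  · refine ⟨u, ?_⟩
    rw [← h, ← zpow_natCast, ← h1]
  · refine ⟨fun i => -u i, ?_⟩
    have h2 : ((B.natAbs : ℕ) : ℤ) = -B := by omega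
    rw [← zpow_natCast, h2, zpow_neg, h, ← Finset.prod_inv_distrib]
    exact Finset.prod_congr rfl fun i _ => by rw [zpow_neg]

end

theorem pf_CORK (h1 : T_HB) (h2 : T_LVB) (h3 : T_RELK) (h4 : T_SFTM) (h5 : T_NRMK)
    (h6 : T_ANAK) : T_CORK := by
  classical
  intro F Ω _ _ _ _ _ _ _ r γ hM N K d hN hKN E hEL hEn T hT hTE s t f pr q δ Φ ht hΦ0 hq0 hc hlt
    β g hβ hg n x hn hgn hx hCj X hX1 hX2 hnot G Q ρ σ hG hQ hσ hGQ hρ S hS hcard
  have : Algebra.IsAlgebraic ℚ Ω := Algebra.IsAlgebraic.trans ℚ F Ω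
  obtain ⟨b1, b2, b3, b4, b5, b6, b7⟩ := h1 Ω
  have hγ0 : ∀ i, γ i ≠ 0 := hM.1
  have hK : 0 < K := Nat.pos_of_dvd_of_pos hKN hN
  have hγ' : ∀ i, algebraMap F Ω (γ i) ≠ 0 := fun i => by
    rw [Ne, map_eq_zero]
    exact hγ0 i
  have hT0 : ∀ i, T i ≠ 0 := by
    intro i h0
    apply hγ' i
    rw [← hT i, h0, zero_pow hK.ne']
  have hbg : β * g ≠ 0 := mul_ne_zero hβ hg
  -- the height is positive
  have hlam : 0 < absLogHeight₁ (β * g) := by
    rcases (b1 (β * g)).lt_or_eq with h | h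
    · exact h
    · exfalso
      apply hnot
      obtain ⟨j, hj, hj1⟩ := b7 _ hbg h.symm
      refine ⟨hbg, j, hj, 0, ?_⟩
      rw [hj1]
      exact (Finset.prod_eq_one fun i _ => by rw [Pi.zero_apply, zpow_zero]).symm
  have hH : 1 ≤ Hg F Ω γ := by
    unfold Hg
    have : 0 ≤ ∑ i, absLogHeight₁ (algebraMap F Ω (γ i)) := Finset.sum_nonneg fun i _ => b1 _
    linarith
  have hKr : (0 : ℝ) < K := by exact_mod_cast hK
  have hHK : 0 < Hg F Ω γ / K := div_pos (by linarith) hKr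
  have hnr : (0 : ℝ) < n := by exact_mod_cast hn
  have hξ : ∀ i, 0 ≤ (x i : ℝ) / n ∧ (x i : ℝ) / n ≤ 1 := by
    intro i
    have e1 : (0 : ℝ) ≤ x i := by exact_mod_cast (hx i).1
    have e2 : (x i : ℝ) ≤ n := by exact_mod_cast (hx i).2.le
    exact ⟨div_nonneg e1 hnr.le, (div_le_one hnr).2 e2⟩
  obtain ⟨hNm, hNr⟩ := h5 r (absLogHeight₁ (β * g)) (Hg F Ω γ / K) (fun i => (x i : ℝ) / n) hlam
    hHK hξ
  have hQ0 : 0 ≤ Q := by linarith
  have hρ0 : 0 ≤ ρ := by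
    refine le_trans ?_ hρ
    positivity
  -- the level fields
  obtain ⟨g1, -, ⟨ζN, hζN⟩, -, -, g6⟩ := h2 F Ω r γ hγ0 N 1 hN one_pos
  obtain ⟨k1, -, -, -, -, -⟩ := h2 F Ω r γ hγ0 N K hN hK
  have hKbL : Lv F Ω γ N 1 ≤ Lv F Ω γ N K := g6 N K dvd_rfl (one_dvd K) hKN hN
  have hEf : FiniteDimensional F E :=
    FiniteDimensional.of_injective (IntermediateField.inclusion hEL).toLinearMap
      (IntermediateField.inclusion_injective hEL)
  -- the relation
  obtain ⟨f0, hf0, hf0S, hf0e⟩ := h3 F Ω r γ hγ0 N K d hN hKN T hT β hCj S hcard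
  have hrel : ∃ f1 : (Fin (r + 1) → ℤ) →₀ (Lv F Ω γ N 1), f1 ≠ 0 ∧
      Spt (nrm r (absLogHeight₁ (β * g)) (Hg F Ω γ / K) (fun i => (x i : ℝ) / n)) σ f1 ∧
      ev (Lv F Ω γ N 1) (pt T β) f1 = 0 := ⟨f0, hf0, fun a ha => hS a (hf0S a ha), hf0e⟩
  -- the primes and the exponents
  obtain ⟨pr', hpr'⟩ : ∃ pr' : ℕ → ℕ, ∀ c, pr' c = if c = 0 then 2 else pr c := ⟨_, fun _ => rfl⟩
  obtain ⟨ex, hex⟩ : ∃ ex : ℕ → ℕ, ∀ c, ex c = if c = 0 then 0 else f := ⟨_, fun _ => rfl⟩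
  have hp0 : pr' 0 ^ ex 0 = 1 := by
    rw [hex 0, if_pos rfl, pow_zero]
  have hpc : ∀ c, 1 ≤ c → pr' c ^ ex c = pr c ^ f := by
    intro c h
    rw [hex c, hpr' c, if_neg (by omega), if_neg (by omega)]
  have hpq : ∀ c, c ≤ s → pr' c ^ ex c = q c := by
    intro c h
    rcases Nat.eq_zero_or_pos c with h0 | h0
    · rw [h0, hp0, hq0]
    · rw [hpc c h0, (hc c h0 h).1]
  have hζ : ∀ c, ∃ ζ : Lv F Ω γ N 1, c ≤ s → IsPrimitiveRoot ζ (pr' c ^ ex c) := by
    intro c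
    by_cases h : c ≤ s
    · rcases Nat.eq_zero_or_pos c with h0 | h0
      · refine ⟨1, fun _ => ?_⟩
        rw [h0, hp0]
        exact IsPrimitiveRoot.one
      · obtain ⟨e, he⟩ := (hc c h0 h).2.2.2.2.2.1
        refine ⟨ζN ^ e, fun _ => ?_⟩
        rw [hpc c h0]
        exact hζN.pow hN (by rw [he, mul_comm])
    · exact ⟨1, fun h' => absurd h' h⟩
  choose ζ hζ using hζ
  have hKalg : Algebra.IsAlgebraic (Lv F Ω γ N 1) Ω :=
    Algebra.IsAlgebraic.tower_top (K := F) (Lv F Ω γ N 1)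
  have hKcl : IsAlgClosure (Lv F Ω γ N 1) Ω := ⟨inferInstance, hKalg⟩
  have hKnor : Normal (Lv F Ω γ N 1) Ω := IsAlgClosure.normal (Lv F Ω γ N 1) Ω
  -- heights
  have hheight : ∀ c a, absLogHeight₁ (((Φ c).symm : Ω ≃+* Ω) ((pt T β a) ^ (pr' c ^ ex c))) =
      ((pr' c ^ ex c : ℕ) : ℝ) * absLogHeight₁ (pt T β a) := by
    intro c a
    rw [b6, b4]
  have hconj : ∀ (c₁ c₂ : ℕ) (a : Fin (r + 1) → ℤ), c₁ < c₂ → c₂ ≤ s → a ≠ 0 →
      aeval (((Φ c₂).symm : Ω ≃+* Ω) ((pt T β a) ^ (pr' c₂ ^ ex c₂)))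
        (minpoly (Lv F Ω γ N 1)
          (((Φ c₁).symm : Ω ≃+* Ω) ((pt T β a) ^ (pr' c₁ ^ ex c₁)))) ≠ 0 := by
    intro c₁ c₂ a hc12 hc2 ha h0
    have hint : IsIntegral (Lv F Ω γ N 1)
        (((Φ c₁).symm : Ω ≃+* Ω) ((pt T β a) ^ (pr' c₁ ^ ex c₁))) :=
      (Algebra.IsAlgebraic.isAlgebraic _).isIntegral
    obtain ⟨τ, hτ⟩ := (isConjRoot_of_aeval_eq_zero hint h0).exists_algEquiv
    have e1 := b6 (τ : Ω ≃+* Ω) (((Φ c₂).symm : Ω ≃+* Ω) ((pt T β a) ^ (pr' c₂ ^ ex c₂)))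
    have e2 : (τ : Ω ≃+* Ω) (((Φ c₂).symm : Ω ≃+* Ω) ((pt T β a) ^ (pr' c₂ ^ ex c₂))) =
        ((Φ c₁).symm : Ω ≃+* Ω) ((pt T β a) ^ (pr' c₁ ^ ex c₁)) := hτ
    rw [e2, hheight, hheight] at e1
    have e3 : pr' c₁ ^ ex c₁ < pr' c₂ ^ ex c₂ := by
      rw [hpc c₂ (by omega)]
      rcases Nat.eq_zero_or_pos c₁ with h | h
      · rw [h, hp0]
        have := (hc c₂ (by omega) hc2).2.2.2.2.1
        omega
      · rw [hpc c₁ h]
        exact hlt c₁ c₂ h hc12 hc2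
    have e4 : ((pr' c₁ ^ ex c₁ : ℕ) : ℝ) < ((pr' c₂ ^ ex c₂ : ℕ) : ℝ) := by
      exact_mod_cast e3
    have e5 : absLogHeight₁ (pt T β a) = 0 := by
      by_contra hne
      have e6 := mul_right_cancel₀ hne e1
      linarith
    obtain ⟨j, hj, hj1⟩ := b7 _ (pt_ne hT0 hβ a) e5
    -- the relation
    have e6 : (β ^ (a 0)) ^ (j * K) * ∏ i, ((T i) ^ (a (Fin.succ i))) ^ (j * K) = 1 := by
      rw [Finset.prod_pow, ← mul_pow, pow_mul]
      have e0 : (β ^ (a 0) * ∏ i, (T i) ^ (a (Fin.succ i))) ^ j = 1 := hj1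
      rw [e0, one_pow]
    have e7 : β ^ (a 0 * j * K) * ∏ i, (algebraMap F Ω (γ i)) ^ (a (Fin.succ i) * j) = 1 := by
      rw [← e6]
      congr 1
      · rw [← zpow_natCast, ← zpow_mul]
        push_cast
        rw [mul_assoc]
      · refine Finset.prod_congr rfl fun i _ => ?_
        rw [← hT i, ← zpow_natCast, ← zpow_mul, ← zpow_natCast, ← zpow_mul]
        congr 1
        push_cast
        ring
    have hj0 : (j : ℤ) ≠ 0 := by exact_mod_cast hj.ne'
    have hK0 : (K : ℤ) ≠ 0 := by exact_mod_cast hK.ne'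
    by_cases ha0 : a 0 = 0
    · rw [ha0, zero_mul, zero_mul, zpow_zero, one_mul] at e7
      have e8 : ∏ i, γ i ^ (a (Fin.succ i) * j) = 1 := by
        apply (algebraMap F Ω).injective
        rw [map_prod, map_one, ← e7]
        exact Finset.prod_congr rfl fun i _ => by rw [map_zpow₀]
      have e9 := hM.2 _ e8
      apply ha
      funext l
      refine Fin.cases ?_ (fun i => ?_) l
      · exact ha0
      · have e10 := congrFun e9 i
        rw [Pi.zero_apply] at e10 ⊢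
        rcases mul_eq_zero.1 e10 with h | h
        · exact h
        · exact absurd h hj0
    · apply hnot
      have hA : a 0 * j * K * n ≠ 0 :=
        mul_ne_zero (mul_ne_zero (mul_ne_zero ha0 hj0) hK0) (by exact_mod_cast hn.ne')
      refine mem_Dv_of_zpow hbg hA (u := fun i => -(a (Fin.succ i) * j * n) + x i * (a 0 * j)) ?_
      have e8 : β ^ (a 0 * j * K) = ∏ i, (algebraMap F Ω (γ i)) ^ (-(a (Fin.succ i) * j)) := by
        have e9 : ∏ i, (algebraMap F Ω (γ i)) ^ (-(a (Fin.succ i) * j)) =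
            (∏ i, (algebraMap F Ω (γ i)) ^ (a (Fin.succ i) * j))⁻¹ := by
          rw [← Finset.prod_inv_distrib]
          exact Finset.prod_congr rfl fun i _ => by rw [zpow_neg]
        rw [e9]
        exact eq_inv_of_mul_eq_one_left e7
      have e9 : (β * g) ^ (a 0 * j * K * n) =
          (β ^ (a 0 * j * K)) ^ n * ((g ^ n) ^ K) ^ (a 0 * j) := by
        rw [mul_zpow]
        congr 1
        · rw [zpow_mul, zpow_natCast]
        · rw [← pow_mul, ← zpow_natCast, ← zpow_mul]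
          congr 1
          push_cast
          ring
      have e10 : (∏ i, T i ^ x i) ^ K = ∏ i, (algebraMap F Ω (γ i)) ^ x i := by
        rw [← Finset.prod_pow]
        refine Finset.prod_congr rfl fun i _ => ?_
        rw [← hT i, ← zpow_natCast, ← zpow_mul, ← zpow_natCast, ← zpow_mul, mul_comm]
      rw [e9, e8, hgn, e10, ← Finset.prod_pow, ← Finset.prod_zpow, ← Finset.prod_mul_distrib]
      refine Finset.prod_congr rfl fun i _ => ?_
      rw [zpow_add₀ (hγ' i)]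
      congr 1
      · rw [← zpow_natCast, ← zpow_mul]
        congr 1
        ring
      · rw [← zpow_mul]
  have hyPt : IsPt (pt T β) := ⟨pt_zero T β, fun a b => pt_add hT0 hβ a b⟩
  obtain ⟨R, d0, r0, nn, hinj, hnn, hr0, hd0, hR, hCols⟩ := h4 (Lv F Ω γ N 1) Ω (r + 1) s t ht pr'
    ex Q ζ (fun c => ((Φ c).symm : Ω ≃+* Ω)) (fun c => resL γ N 1 (Φ c).symm)
    (fun c h => by
      refine ⟨?_, hζ c h, ?_⟩
      · rcases Nat.eq_zero_or_pos c with h0 | h0
        · rw [hpr' c, if_pos h0]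
          exact Nat.prime_two
        · rw [hpr' c, if_neg (by omega)]
          exact (hc c h0 h).2.1.1
      · have e1 : ((pr' c : ℝ)) ^ ex c = ((pr' c ^ ex c : ℕ) : ℝ) := by push_cast; rfl
        rw [e1, hpq c h]
        rcases Nat.eq_zero_or_pos c with h0 | h0
        · rw [h0, hq0]
          exact_mod_cast hQ
        · exact (hGQ c h0 h).2)
    (fun c₁ c₂ h12 h2' => by
      rw [hpc c₂ (by omega)]
      rcases Nat.eq_zero_or_pos c₁ with h | h
      · rw [h, hp0]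
        have := (hc c₂ (by omega) h2').2.2.2.2.1
        omega
      · rw [hpc c₁ h]
        exact hlt c₁ c₂ h h12 h2')
    (by rw [hex 0, if_pos rfl])
    (fun c h h' => by
      rw [hpc c h]
      exact (hc c h h').2.2.2.2.1)
    (fun c z => rfl)
    (fun z => by
      show (Φ 0).symm z = z
      rw [AlgEquiv.symm_apply_eq, hΦ0])
    (pt T β) hyPt
    (nrm r (absLogHeight₁ (β * g)) (Hg F Ω γ / K) (fun i => (x i : ℝ) / n)) hNm σ ρ hσ
    (by
      refine le_trans (le_of_eq ?_) hρ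
      push_cast
      ring) hrel hconj
  -- the columns
  have hfun : ∀ c, c ≤ s → yl F Ω Φ q T β c =
      fun a => ((Φ c).symm : Ω ≃+* Ω) ((pt T β a) ^ (pr' c ^ ex c)) := by
    intro c h
    funext a
    unfold yl
    rw [map_pow, hpq c h]
    rfl
  have hCols' : Cols (Lv F Ω γ N 1) t s d0 (yl F Ω Φ q T β) nn := by
    have e0 := hfun 0 (Nat.zero_le s)
    constructor
    · intro z hz hz'
      rw [e0] at hz
      refine hCols.inj z hz fun c h h' => ?_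
      have e1 := hz' c h h'
      rw [hfun c h'] at e1
      exact e1
    · rw [e0]
      exact hCols.dim
  refine ⟨R, d0, r0, hr0, hd0, hR, ?_, ?_⟩
  · refine ((hNr ρ hρ0).2 R nn hinj hnn).trans ?_
    have e1 : ρ / (Hg F Ω γ / K) ≤ ρ * K := by
      rw [div_div_eq_mul_div]
      exact div_le_self (by positivity) hH
    have e2 : 0 ≤ ρ / (Hg F Ω γ / K) := div_nonneg hρ0 hHK.le
    have e3 : 0 ≤ ρ / absLogHeight₁ (β * g) := div_nonneg hρ0 hlam.le
    refine pow_le_pow_left₀ (by linarith) ?_ _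
    linarith
  · exact h6 F Ω r γ hγ0 (Lv F Ω γ N 1) E g1 hEf (fun τ z hz => Lv_stab γ N 1 τ hz) hEn K hK T hT
      hTE s t f pr q δ Φ hΦ0 hq0 (fun c h h' => by
        obtain ⟨c1, c2, c3, c4, c5, c6, c7⟩ := hc c h h'
        exact ⟨c1, c2, c3, c4, c7⟩) β g hβ hg n x hn hgn hx X hX1 (fun y hy => by
        obtain ⟨τ, hτ, hτ2⟩ := hX2 y hy
        exact ⟨τ, fun z hz => hτ z (hKbL hz), fun z hz => hτ z (hEL hz), hτ2⟩) hlam G Q ρ hG hQ
      hρ0 hGQ R d0 nn hinj hnn hCols'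

end Pool.Agent.H90.LG
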